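import Pool.Agent.W295.NL.StmD

set_option autoImplicit false

namespace Pool.Agent.W387.NL.D2

open Pool.Agent.W295.NL

theorem main : S_D2 := by
  intro Q Q' _ L L' φ hL hL' hφ _ hfib hD
  obtain ⟨D', h1, h2, h3⟩ := hD
  -- the cells of a row of the duplex of the quotient match the fibre of the row
  have key : ∀ i : Q', Nonempty ({j // (i, j) ∈ D'} ≃ {r // φ r = i}) := by
    intro i
    have hc : Nat.card {j // (i, j) ∈ D'} = 2 := by
      rw [← h1 i]
      change Nat.card {j // (i, j) ∈ D'} = Nat.card {p : Q' × Q' // p ∈ D' ∧ p.1 = i}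
      refine Nat.card_congr ⟨fun j => ⟨(i, j.1), j.2, rfl⟩, fun p => ⟨p.1.2, ?_⟩, ?_, ?_⟩
      · obtain ⟨⟨a, b⟩, hp, hpi⟩ := p
        simp only at hpi
        subst hpi
        exact hp
      · intro j
        rfl
      · rintro ⟨⟨a, b⟩, hp, hpi⟩
        simp only at hpi
        subst hpi
        rfl
    have f1 : Finite {j // (i, j) ∈ D'} := Nat.finite_of_card_ne_zero (by omega)
    have f2 : Finite {r // φ r = i} := Nat.finite_of_card_ne_zero (by rw [hfib i]; omega)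
    exact Finite.card_eq.mp (by rw [hc, hfib i])
  have e : ∀ i : Q', ({j // (i, j) ∈ D'} ≃ {r // φ r = i}) := fun i => (key i).some
  let J : Q → Q' := fun r => ((e (φ r)).symm ⟨r, rfl⟩).1
  have hJ : ∀ r, (φ r, J r) ∈ D' := fun r => ((e (φ r)).symm ⟨r, rfl⟩).2
  have hJi : ∀ r r', φ r = φ r' → J r = J r' → r = r' := by
    intro r r' h h'
    have aux : ∀ i (hr : φ r = i) (hr' : φ r' = i), ((e i).symm ⟨r, hr⟩).1 = ((e i).symm ⟨r', hr'⟩).1 →
        r = r' := by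
      intro i hr hr' hh
      have := (e i).symm.injective (Subtype.ext hh)
      exact congrArg Subtype.val this
    refine aux (φ r') h rfl ?_
    have aux2 : ∀ i (hr : φ r = i), ((e i).symm ⟨r, hr⟩).1 = J r := by
      intro i hr
      subst hr
      rfl
    rw [aux2]
    exact h'
  have hJs : ∀ i j, (i, j) ∈ D' → ∃ r, φ r = i ∧ J r = j := by
    intro i j hij
    refine ⟨(e i ⟨j, hij⟩).1, (e i ⟨j, hij⟩).2, ?_⟩
    have aux2 : ∀ r i (hr : φ r = i), J r = ((e i).symm ⟨r, hr⟩).1 := by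
      intro r i hr
      subst hr
      rfl
    rw [aux2 _ i (e i ⟨j, hij⟩).2]
    simp
  refine ⟨{p | φ p.2 = J p.1}, ?_, ?_, ?_⟩
  · intro r
    rw [← hfib (J r)]
    change Nat.card {p : Q × Q // φ p.2 = J p.1 ∧ p.1 = r} = _
    refine Nat.card_congr ⟨fun p => ⟨p.1.2, ?_⟩, fun c => ⟨(r, c.1), c.2, rfl⟩, ?_, ?_⟩
    · obtain ⟨⟨a, b⟩, hp, hpr⟩ := p
      simp only at hpr hp
      subst hpr
      exact hp
    · rintro ⟨⟨a, b⟩, hp, hpr⟩
      simp only at hpr hp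
      subst hpr
      rfl
    · intro c
      rfl
  · intro c
    rw [← h2 (φ c)]
    refine Set.ncard_congr (fun p _ => (φ p.1, φ p.2)) ?_ ?_ ?_
    · rintro ⟨a, b⟩ ⟨hp, hpc⟩
      simp only [Set.mem_setOf_eq] at hp hpc ⊢
      subst hpc
      refine ⟨?_, rfl⟩
      rw [hp]
      exact hJ a
    · rintro ⟨a, b⟩ ⟨a', b'⟩ ⟨hp, hpc⟩ ⟨hp', hpc'⟩ h
      simp only [Set.mem_setOf_eq] at hp hpc hp' hpc'
      subst hpc
      subst hpc'
      simp only [Prod.mk.injEq] at h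
      rw [hJi a a' h.1 (hp.symm.trans hp')]
    · rintro ⟨i, j⟩ ⟨hp, hpc⟩
      simp only at hpc
      subst hpc
      obtain ⟨r, hr1, hr2⟩ := hJs i _ hp
      refine ⟨(r, c), ⟨hr2.symm, rfl⟩, ?_⟩
      simp only [hr1]
  · intro s
    rw [← h3 (φ s)]
    refine Set.ncard_congr (fun p _ => (φ p.1, φ p.2)) ?_ ?_ ?_
    · rintro ⟨a, b⟩ ⟨hp, hpc⟩
      simp only [Set.mem_setOf_eq] at hp hpc ⊢
      refine ⟨?_, ?_⟩
      · rw [hp]
        exact hJ a
      · rw [← hφ, hpc]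
    · rintro ⟨a, b⟩ ⟨a', b'⟩ ⟨hp, hpc⟩ ⟨hp', hpc'⟩ h
      simp only [Set.mem_setOf_eq] at hp hpc hp' hpc'
      simp only [Prod.mk.injEq] at h
      have h5 : a = a' := hJi a a' h.1 (by rw [← hp, ← hp', h.2])
      subst h5
      rw [(hL.1 a).1 (hpc.trans hpc'.symm)]
    · rintro ⟨i, j⟩ ⟨hp, hpc⟩
      simp only at hpc
      obtain ⟨r, hr1, hr2⟩ := hJs i _ hp
      obtain ⟨c, hc⟩ := (hL.1 r).2 s
      have h6 : φ c = j := by
        apply (hL'.1 i).1
        rw [hpc, ← hc, hφ, hr1]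
      refine ⟨(r, c), ⟨?_, hc⟩, ?_⟩
      · simp only [Set.mem_setOf_eq]
        rw [h6, hr2]
      · simp only [hr1, h6]

end Pool.Agent.W387.NL.D2
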